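import Pool.Agent.R490.LGf

set_option autoImplicit false

/-!
# Products of at most three primes in a fixed class for almost all moduli
-/

namespace Pool.Agent.Results.MP_da4d09_nt.AlmostPrimesOneModN

open Finset Filter

open Classical in
/-- the number of the integers `2 ≤ N ≤ Y`, `N ≡ c` modulo `m`, with at most `k` prime factors (counted with
multiplicity), all of them at least `w` -/
noncomputable def almostPrimes (c : ℤ) (m k : ℕ) (w Y : ℝ) : ℕ :=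
  ((Icc 2 ⌊Y⌋₊).filter (fun N : ℕ => (N : ℤ) ≡ c [ZMOD m] ∧ N.primeFactorsList.length ≤ k ∧
    ∀ p : ℕ, p.Prime → p ∣ N → w ≤ p)).card

lemma cnt_le (c : ℤ) (m k K : ℕ) (w Y : ℝ) (hm : 1 ≤ m) (hY : (K : ℝ) * m + c.natAbs ≤ Y) :
    R490.LGb.cnt (fun j => j) (fun _ => c) k K m w ≤ almostPrimes c m k w Y := by
  classical
  unfold R490.LGb.cnt almostPrimes
  apply card_le_card_of_injOn (fun j : ℕ => ((j : ℤ) * m + c).toNat)
  · intro j hj
    rw [mem_coe, mem_filter, mem_Icc] at hj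
    obtain ⟨⟨h1, h2⟩, h3, h4, h5⟩ := hj
    obtain ⟨N, hN⟩ : ∃ N : ℕ, (N : ℤ) = (j : ℤ) * m + c := ⟨((j : ℤ) * m + c).toNat, Int.toNat_of_nonneg (by linarith)⟩
    rw [← hN] at h3 h4 h5
    show ((j : ℤ) * m + c).toNat ∈ _
    rw [← hN, Int.toNat_natCast, mem_coe, mem_filter, mem_Icc]
    rw [Int.toNat_natCast] at h4
    refine ⟨⟨by exact_mod_cast h3, ?_⟩, ?_, h4, ?_⟩
    · apply Nat.le_floor
      refine le_trans ?_ hY
      have a1 : (N : ℤ) ≤ (K : ℤ) * m + c.natAbs := by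
        rw [hN]
        have b1 : (j : ℤ) * m ≤ (K : ℤ) * m := by
          apply mul_le_mul_of_nonneg_right _ (by positivity)
          exact_mod_cast h2
        have b2 : c ≤ (c.natAbs : ℤ) := by
          rw [Int.natCast_natAbs]
          exact le_abs_self _
        linarith
      exact_mod_cast a1
    · rw [hN]
      have : (j : ℤ) * m + c ≡ 0 + c [ZMOD m] := ((Int.modEq_zero_iff_dvd).2 (dvd_mul_left _ _)).add_right _
      rwa [zero_add] at this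
    · intro p hp hd
      exact h5 p hp (by exact_mod_cast hd)
  · intro a ha b hb hab
    rw [mem_coe, mem_filter] at ha hb
    simp only at hab
    have e1 := Int.toNat_of_nonneg (by linarith [ha.2.1] : (0 : ℤ) ≤ (a : ℤ) * m + c)
    have e2 := Int.toNat_of_nonneg (by linarith [hb.2.1] : (0 : ℤ) ≤ (b : ℤ) * m + c)
    have e3 : (a : ℤ) * m + c = (b : ℤ) * m + c := by
      rw [← e1, ← e2, hab]
    have e4 : (a : ℤ) * m = (b : ℤ) * m := by linarith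
    have e5 : (m : ℤ) ≠ 0 := by
      have : m ≠ 0 := by omega
      exact_mod_cast this
    exact_mod_cast mul_right_cancel₀ e5 e4

/-- **Almost primes in a fixed class for almost all moduli.** -/
theorem general (c : ℤ) (hc : c ≠ 0) (θ ε : ℝ) (k : ℕ) (hθ : 0 < θ) (hθ1 : θ ≤ 1)
    (hk : 1 / 8 + 25 / (12 * θ) < k) (hε : 0 < ε) :
    ∃ κ Λ : ℝ, 0 < κ ∧ 0 < Λ ∧ ∀ l : ℝ, Λ ≤ l → ∃ X₀ : ℕ, ∀ X : ℕ, X₀ ≤ X → ∀ Z L : ℕ,
      (X : ℝ) ^ θ ≤ L → Z + L ≤ X →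
      (({m : ℕ | m ∈ Ioc Z (Z + L) ∧ m.Coprime c.natAbs ∧
        (almostPrimes c m k ((X : ℝ) ^ (θ / 10)) (l * (m * Real.log X)) : ℝ) < κ * l} : Set ℕ).ncard : ℝ) ≤
        ε * L := by
  classical
  obtain ⟨κ, Λ, hκ, hΛ, h⟩ := R490.LGf.mainA c hc θ ε k hθ hθ1 hk hε
  refine ⟨κ / 2, 2 * Λ, by positivity, by positivity, ?_⟩
  intro l hl
  have hl0 : 0 < l := by linarith
  have tl : Tendsto (fun X : ℕ => Real.log (X : ℝ)) atTop atTop :=
    Real.tendsto_log_atTop.comp tendsto_natCast_atTop_atTop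
  obtain ⟨X₀, hX₀⟩ := eventually_atTop.1 ((h (l / 2) (by linarith)).and
    (tl.eventually_ge_atTop (2 * c.natAbs / l)))
  refine ⟨X₀, ?_⟩
  intro X hX Z L hL hZ
  obtain ⟨h1, h2⟩ := hX₀ X hX
  have h3 := h1 Z L hL hZ
  refine le_trans ?_ h3
  rw [← Set.ncard_coe_finset]
  have hlog0 : 0 ≤ Real.log X := le_trans (by positivity) h2
  have hsub : ({m : ℕ | m ∈ Ioc Z (Z + L) ∧ m.Coprime c.natAbs ∧
        (almostPrimes c m k ((X : ℝ) ^ (θ / 10)) (l * (m * Real.log X)) : ℝ) < κ / 2 * l} : Set ℕ) ⊆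
      (((Ioc Z (Z + L)).filter (fun n => R490.LGf.AdmA c n ∧
        (R490.LGb.cnt (fun j => j) (fun _ => c) k ⌊l / 2 * Real.log X⌋₊ n ((X : ℝ) ^ (θ / 10)) : ℝ) <
          κ * (l / 2))) : Finset ℕ) := by
    intro m hm
    obtain ⟨a1, a2, a3⟩ := hm
    rw [mem_coe, mem_filter]
    refine ⟨a1, a2, ?_⟩
    have hm1 : 1 ≤ m := by
      rw [mem_Ioc] at a1
      omega
    have hm1r : (1 : ℝ) ≤ m := by exact_mod_cast hm1
    have a4 : R490.LGb.cnt (fun j => j) (fun _ => c) k ⌊l / 2 * Real.log X⌋₊ m ((X : ℝ) ^ (θ / 10)) ≤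
        almostPrimes c m k ((X : ℝ) ^ (θ / 10)) (l * (m * Real.log X)) := by
      apply cnt_le c m k _ _ _ hm1
      have b1 : (⌊l / 2 * Real.log X⌋₊ : ℝ) ≤ l / 2 * Real.log X := Nat.floor_le (by positivity)
      have b2 : (⌊l / 2 * Real.log X⌋₊ : ℝ) * m ≤ l / 2 * Real.log X * m :=
        mul_le_mul_of_nonneg_right b1 (by linarith)
      have b3 : (c.natAbs : ℝ) ≤ l / 2 * Real.log X := by
        rw [div_le_iff₀ hl0] at h2
        linarith
      have b4 : l / 2 * Real.log X ≤ l / 2 * Real.log X * m := le_mul_of_one_le_right (by positivity) hm1r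
      linarith
    have a5 : (R490.LGb.cnt (fun j => j) (fun _ => c) k ⌊l / 2 * Real.log X⌋₊ m ((X : ℝ) ^ (θ / 10)) : ℝ) ≤
        almostPrimes c m k ((X : ℝ) ^ (θ / 10)) (l * (m * Real.log X)) := by exact_mod_cast a4
    linarith
  have h4 := Set.ncard_le_ncard hsub (Finset.finite_toSet _)
  exact_mod_cast h4

open Classical in
/-- the number of the integers `2 ≤ N ≤ Y`, `N ≡ 1` modulo `m`, with at most `k` prime factors (counted with
multiplicity), all of them at least `w` -/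
noncomputable def almostPrimesOne (m k : ℕ) (w Y : ℝ) : ℕ :=
  ((Icc 2 ⌊Y⌋₊).filter (fun N : ℕ => N ≡ 1 [MOD m] ∧ N.primeFactorsList.length ≤ k ∧
    ∀ p : ℕ, p.Prime → p ∣ N → w ≤ p)).card

lemma one_eq (m k : ℕ) (w Y : ℝ) : almostPrimes 1 m k w Y = almostPrimesOne m k w Y := by
  classical
  unfold almostPrimes almostPrimesOne
  congr 1
  apply filter_congr
  intro N _
  have : (N : ℤ) ≡ 1 [ZMOD m] ↔ N ≡ 1 [MOD m] := by
    rw [← Int.natCast_modEq_iff]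
    simp
  rw [this]

/-- **Almost primes congruent to `1` modulo `n` for almost all `n`.** -/
theorem result (θ ε : ℝ) (k : ℕ) (hθ : 0 < θ) (hθ1 : θ ≤ 1) (hk : 1 / 8 + 25 / (12 * θ) < k) (hε : 0 < ε) :
    ∃ κ Λ : ℝ, 0 < κ ∧ 0 < Λ ∧ ∀ l : ℝ, Λ ≤ l → ∃ X₀ : ℕ, ∀ X : ℕ, X₀ ≤ X → ∀ Z L : ℕ,
      (X : ℝ) ^ θ ≤ L → Z + L ≤ X →
      (({n : ℕ | n ∈ Ioc Z (Z + L) ∧
        (almostPrimesOne n k ((X : ℝ) ^ (θ / 10)) (l * (n * Real.log X)) : ℝ) < κ * l} : Set ℕ).ncard : ℝ) ≤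
        ε * L := by
  obtain ⟨κ, Λ, hκ, hΛ, h⟩ := general 1 one_ne_zero θ ε k hθ hθ1 hk hε
  refine ⟨κ, Λ, hκ, hΛ, ?_⟩
  intro l hl
  obtain ⟨X₀, hX₀⟩ := h l hl
  refine ⟨X₀, ?_⟩
  intro X hX Z L hL hZ
  have h1 := hX₀ X hX Z L hL hZ
  have e : {m : ℕ | m ∈ Ioc Z (Z + L) ∧ m.Coprime (1 : ℤ).natAbs ∧
        (almostPrimes 1 m k ((X : ℝ) ^ (θ / 10)) (l * (m * Real.log X)) : ℝ) < κ * l} =
      {n : ℕ | n ∈ Ioc Z (Z + L) ∧
        (almostPrimesOne n k ((X : ℝ) ^ (θ / 10)) (l * (n * Real.log X)) : ℝ) < κ * l} := by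
    ext m
    simp only [Set.mem_setOf_eq, one_eq, Int.natAbs_one, Nat.coprime_one_right_eq_true, true_and]
  rw [e] at h1
  exact h1

end Pool.Agent.Results.MP_da4d09_nt.AlmostPrimesOneModN
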