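import Pool.Agent.R121.LM

set_option autoImplicit false

/-!
# Almost primes `N ≡ 1 (mod n)` with `(N - 1) / n` a very small perfect power
-/

namespace Pool.Agent.Results.MP_da4d09_nt.PowerMultipliersAlmostPrimes

open Finset
open Pool.Agent

open Classical in
/-- the number of the `1 ≤ j ≤ T` such that `N = j ^ d n + 1` has at most `k` prime factors
(counted with multiplicity), all of them at least `w` -/
noncomputable def multipliers (d n k : ℕ) (w T : ℝ) : ℕ :=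
  ((Icc 1 ⌊T⌋₊).filter (fun j : ℕ => (j ^ d * n + 1).primeFactorsList.length ≤ k ∧
    ∀ p : ℕ, p.Prime → p ∣ j ^ d * n + 1 → w ≤ p)).card

lemma cnt_le (d n k : ℕ) (w T : ℝ) :
    R490.LGb.cnt (fun j => j ^ d) (fun _ => 1) k ⌊T⌋₊ n w ≤ multipliers d n k w T := by
  classical
  unfold R490.LGb.cnt multipliers
  apply card_le_card
  intro j hj
  rw [mem_filter] at hj ⊢
  obtain ⟨h1, h2, h3, h4⟩ := hj
  have e : ((j ^ d : ℕ) : ℤ) * n + 1 = ((j ^ d * n + 1 : ℕ) : ℤ) := by push_cast; ring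
  rw [e] at h3 h4
  rw [Int.toNat_natCast] at h3
  exact ⟨h1, h3, fun p hp hd => h4 p hp (by exact_mod_cast hd)⟩

/-- **For almost all `n` many very small perfect `d`-th powers `m` make `n m + 1` an almost prime.** -/
theorem result (d : ℕ) (hd : 2 ≤ d) (θ ε : ℝ) (k : ℕ) (hθ : 0 < θ) (hθ1 : θ ≤ 1)
    (hk : 1 / 8 + 25 / (12 * θ) < k) (hε : 0 < ε) :
    ∃ κ Λ : ℝ, 0 < κ ∧ 0 < Λ ∧ ∀ l : ℝ, Λ ≤ l → ∃ X₀ : ℕ, ∀ X : ℕ, X₀ ≤ X → ∀ Z L : ℕ,
      (X : ℝ) ^ θ ≤ L → Z + L ≤ X →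
      (({n : ℕ | n ∈ Ioc Z (Z + L) ∧
        (multipliers d n k ((X : ℝ) ^ (θ / 10)) (l * Real.log X) : ℝ) < κ * l} : Set ℕ).ncard : ℝ) ≤
        ε * L := by
  classical
  obtain ⟨κ, Λ, hκ, hΛ, h⟩ := R121.LM.mainM d 1 (by omega) one_ne_zero θ ε k hθ hθ1 hk hε
  refine ⟨κ, Λ, hκ, hΛ, ?_⟩
  intro l hl
  obtain ⟨X₀, hX₀⟩ := Filter.eventually_atTop.1 (h l hl)
  refine ⟨X₀, ?_⟩
  intro X hX Z L hL hZ
  have h3 := hX₀ X hX Z L hL hZ
  refine le_trans ?_ h3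
  rw [← Set.ncard_coe_finset]
  have hadm : ∀ n : ℕ, R121.LM.AdmM d 1 n := by
    intro n p hp
    refine ⟨0, ?_⟩
    rw [zero_pow (by omega), Nat.cast_zero, zero_mul, zero_add]
    intro h0
    have h1 : p ∣ 1 := by exact_mod_cast h0
    exact hp.one_lt.ne' (Nat.dvd_one.1 h1)
  have hsub : ({n : ℕ | n ∈ Ioc Z (Z + L) ∧
        (multipliers d n k ((X : ℝ) ^ (θ / 10)) (l * Real.log X) : ℝ) < κ * l} : Set ℕ) ⊆
      (((Ioc Z (Z + L)).filter (fun n => R121.LM.AdmM d 1 n ∧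
        (R490.LGb.cnt (fun j => j ^ d) (fun _ => 1) k ⌊l * Real.log X⌋₊ n
          ((X : ℝ) ^ (θ / 10)) : ℝ) < κ * l)) : Finset ℕ) := by
    intro n hn
    obtain ⟨a1, a2⟩ := hn
    rw [mem_coe, mem_filter]
    refine ⟨a1, hadm n, ?_⟩
    have a3 : (R490.LGb.cnt (fun j => j ^ d) (fun _ => 1) k ⌊l * Real.log X⌋₊ n
        ((X : ℝ) ^ (θ / 10)) : ℝ) ≤
        multipliers d n k ((X : ℝ) ^ (θ / 10)) (l * Real.log X) := by exact_mod_cast cnt_le d n k _ _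
    linarith
  have h4 := Set.ncard_le_ncard hsub (Finset.finite_toSet _)
  exact_mod_cast h4

end Pool.Agent.Results.MP_da4d09_nt.PowerMultipliersAlmostPrimes
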